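import Pool.Agent.TH54.BU.Iter
import Pool.Agent.TH54.BU.Inf

/-!
# Free groups of large prime exponent: universal property and centralizers (helper22)
-/

set_option autoImplicit false

namespace Pool.Agent.H22V.BU

open Pool.Agent.TH54.BU

/-- the free group of exponent `p` on `I` -/
abbrev FB (I : Type) (p : ℕ) : Type := FreeGroup I ⧸ powSub (FreeGroup I) p

variable {I : Type} {p : ℕ}

/-- the generators -/
def gen (i : I) : FB I p := (FreeGroup.of i : FreeGroup I)

theorem FB.pow (x : FB I p) : x ^ p = 1 := by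
  induction x using QuotientGroup.induction_on with
  | H g =>
    rw [← QuotientGroup.mk_pow, QuotientGroup.eq_one_iff]
    exact Subgroup.subset_normalClosure ⟨g, rfl⟩

/-- the universal property -/
def lft {G : Type*} [Group G] (h : ∀ g : G, g ^ p = 1) (f : I → G) : FB I p →* G :=
  QuotientGroup.lift _ (FreeGroup.lift f) (by
    intro x hx
    have h1 : powSub (FreeGroup I) p ≤ (FreeGroup.lift f).ker := by
      apply Subgroup.normalClosure_le_normal
      rintro _ ⟨g, rfl⟩
      rw [SetLike.mem_coe, MonoidHom.mem_ker, map_pow]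
      exact h _
    exact h1 hx)

theorem lft_gen {G : Type*} [Group G] (h : ∀ g : G, g ^ p = 1) (f : I → G) (i : I) :
    lft h f (gen i) = f i := by
  show FreeGroup.lift f (FreeGroup.of i) = f i
  simp

theorem hom_ext {G : Type*} [Group G] {f g : FB I p →* G} (h : ∀ i, f (gen i) = g (gen i)) :
    f = g := by
  apply QuotientGroup.monoidHom_ext
  apply FreeGroup.ext_hom
  intro i
  exact h i

/-- commuting elements lie in a common cyclic subgroup -/
theorem cent (hp : p.Prime) (hB : Burn p) {X Y : FB I p} (hX : X ≠ 1) (h : X * Y = Y * X) :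
    Y ∈ Subgroup.zpowers X := by
  obtain ⟨A, _, z, φ, hφ, hker, hz, hzinf, hpow, -⟩ := hB I
  have hinj : ∀ {a b : ℤ}, z ^ a = z ^ b → a = b := fun {a b} h =>
    injective_zpow_iff_not_isOfFinOrder.2 hzinf h
  obtain ⟨a, rfl⟩ := hφ X
  obtain ⟨b, rfl⟩ := hφ Y
  have ha : a ∉ Subgroup.zpowers z := by
    intro ha
    rw [← hker, MonoidHom.mem_ker] at ha
    exact hX ha
  by_cases hb : b ∈ Subgroup.zpowers z
  · rw [← hker, MonoidHom.mem_ker] at hb
    rw [hb]
    exact Subgroup.one_mem _
  obtain ⟨k, hk, hpk⟩ := hpow a ha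
  obtain ⟨l, hl, hpl⟩ := hpow b hb
  have hzc : ∀ (c : A) (j : ℤ), Commute c (z ^ j) := fun c j =>
    (show Commute c z from hz c).zpow_right j
  -- the commutator is a power of `z`
  obtain ⟨j, hj⟩ : ∃ j : ℤ, z ^ j = a * b * a⁻¹ * b⁻¹ := by
    have : a * b * a⁻¹ * b⁻¹ ∈ φ.ker := by
      rw [MonoidHom.mem_ker]
      simp only [map_mul, map_inv]
      rw [h]
      group
    rw [hker] at this
    exact this
  have h1 : a * b * a⁻¹ = z ^ j * b := by rw [hj]; group
  have h2 : ∀ n : ℕ, a ^ n * b * (a ^ n)⁻¹ = z ^ (j * n) * b := by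
    intro n
    induction n with
    | zero => simp
    | succ n ih =>
      have : a ^ (n + 1) * b * (a ^ (n + 1))⁻¹ = a * (a ^ n * b * (a ^ n)⁻¹) * a⁻¹ := by
        rw [pow_succ']
        group
      rw [this, ih]
      have hc := (hzc a (j * n)).eq
      calc a * (z ^ (j * (n : ℤ)) * b) * a⁻¹ = (a * z ^ (j * (n : ℤ))) * b * a⁻¹ := by group
        _ = z ^ (j * (n : ℤ)) * (a * b * a⁻¹) := by rw [hc]; group
        _ = z ^ (j * (n : ℤ)) * (z ^ j * b) := by rw [h1]
        _ = z ^ (j * ((n + 1 : ℕ) : ℤ)) * b := by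
          rw [← mul_assoc, ← zpow_add]
          congr 2
          push_cast
          ring
  have h3 : z ^ (j * p) = z ^ (0 : ℤ) := by
    have h4 := h2 p
    rw [hk] at h4
    have h5 : z ^ k * b * (z ^ k)⁻¹ = b := by
      rw [← (hzc b k).eq]
      group
    rw [h5] at h4
    rw [zpow_zero]
    exact (mul_eq_right.1 h4.symm)
  have h4 : j = 0 := by
    have := hinj h3
    rcases mul_eq_zero.1 this with h | h
    · exact h
    · exact absurd h (by exact_mod_cast hp.ne_zero)
  have hab : Commute a b := by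
    rw [h4, zpow_zero, one_mul] at h1
    exact mul_inv_eq_iff_eq_mul.1 h1
  -- choose `m` with `p ∣ k m + l`
  obtain ⟨m, hm⟩ : ∃ m : ℤ, (p : ℤ) ∣ k * m + l := by
    have := Fact.mk hp
    have hk0 : ((k : ℤ) : ZMod p) ≠ 0 := by
      rw [Ne, ZMod.intCast_zmod_eq_zero_iff_dvd]
      exact hpk
    refine ⟨((-(l : ZMod p) * (k : ZMod p)⁻¹ : ZMod p).val : ℤ), ?_⟩
    rw [← ZMod.intCast_zmod_eq_zero_iff_dvd]
    push_cast
    rw [ZMod.natCast_val, ZMod.cast_id]
    field_simp
    ring
  have h5 : (a ^ m * b) ^ p = z ^ (k * m + l) := by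
    rw [(hab.zpow_left m).mul_pow, hl, ← zpow_natCast (a ^ m) p, ← zpow_mul, mul_comm m,
      zpow_mul, zpow_natCast, hk, ← zpow_mul, ← zpow_add]
  have h6 : a ^ m * b ∈ Subgroup.zpowers z := by
    by_contra hn
    obtain ⟨k', hk', hpk'⟩ := hpow _ hn
    rw [h5] at hk'
    rw [← hinj hk'] at hpk'
    exact hpk' hm
  rw [← hker, MonoidHom.mem_ker, map_mul, map_zpow] at h6
  refine ⟨-m, ?_⟩
  show φ a ^ (-m) = φ b
  rw [zpow_neg]
  exact inv_eq_of_mul_eq_one_right h6

theorem cent_finite (hp : p.Prime) (hB : Burn p) {X : FB I p} (hX : X ≠ 1) :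
    (Subgroup.centralizer {X} : Set (FB I p)).Finite := by
  have h1 : (Subgroup.zpowers X : Set (FB I p)).Finite := by
    have : IsOfFinOrder X := isOfFinOrder_iff_pow_eq_one.2 ⟨p, hp.pos, FB.pow X⟩
    exact finite_zpowers.2 this
  refine h1.subset ?_
  intro Y hY
  refine cent hp hB hX ?_
  have := Subgroup.mem_centralizer_iff.1 hY X (Set.mem_singleton _)
  exact this

end Pool.Agent.H22V.BU
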